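import Pool.Agent.H827R2.N1c
import Pool.Agent.H827R2.G3
import Pool.Agent.H827R2.G1
import Pool.Agent.H827R2.G2
import Pool.Agent.H827R2.C1
import Pool.Agent.H827R2.O1

/-!
# N1: `P0` carries no torus invariant cscK metric
-/

open MeasureTheory Set Filter Topology
open scoped ContDiff

namespace YTD

lemma N0_pos : 0 < N0 := by unfold N0; norm_num

lemma L1_const_mul (p : Par) (A k : ℝ) (h : ℝ → ℝ) :
    p.L1 A (fun z => k * h z) = k * p.L1 A h := by
  unfold Par.L1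
  have h1 : (fun z => p.w A z * (k * h z)) = fun z => k * (p.w A z * h z) := by
    ext z; ring
  rw [h1, intervalIntegral.integral_const_mul]
  ring

lemma donaldson_P0 {f : (Fin 4 → ℝ) → ℝ} (hf : Continuous f) :
    P0.sys.donaldson f = N0 ^ 3 * p0.L A0 (fun q => f (unc q)) := by
  have h1 := bdryInt0 (f := fun _ => 1) continuous_const
  have h2 := volInt0 (f := fun _ => 1) continuous_const
  have h3 : p0.Bd (fun _ => 1) - A0 * p0.I (fun _ => 1) = 0 := L_one good0
  have hv := P0.sys.volInt_one_pos delzant0.bounded delzant0.interior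
  have hN := N0_pos
  unfold Sys.donaldson
  rw [h1, bdryInt0 hf, volInt0 hf]
  rw [h2] at hv ⊢
  have h4 : p0.Bd (fun _ => 1) = A0 * p0.I (fun _ => 1) := by linarith
  rw [h4]
  have hI : p0.I (fun _ => 1) ≠ 0 := by
    intro h
    rw [h] at hv
    simp at hv
  unfold Par.L
  field_simp

lemma sqrt_bounds : 20 < Real.sqrt (3 * D0) ∧ Real.sqrt (3 * D0) < 21 := by
  constructor
  · apply Real.lt_sqrt_of_sq_lt
    unfold D0; norm_num
  · rw [Real.sqrt_lt' (by norm_num)]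
    unfold D0; norm_num

lemma p0_T_bounds : 1517 < p0.T ∧ p0.T < 1518 := by
  simp only [p0, N0]
  constructor <;> norm_num

lemma p0_c_bounds : p0.c1 < 1 ∧ 0 < p0.c1 ∧ p0.c2 < 1 ∧ 0 < p0.c2 := by
  simp only [p0, N0]
  refine ⟨?_, ?_, ?_, ?_⟩ <;> norm_num

lemma cut_meets : ∃ x ∈ P0.sys.inner, x 3 = N0 * Real.sqrt (3 * D0) := by
  have hN := N0_pos
  set c := Real.sqrt (3 * D0) with hc
  obtain ⟨hc1, hc2⟩ := sqrt_bounds
  obtain ⟨hT1, hT2⟩ := p0_T_bounds
  obtain ⟨a1, a2, a3, a4⟩ := p0_c_bounds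
  refine ⟨![0, N0 * p0.h1 c, N0 * p0.h2 c, N0 * c], ?_, rfl⟩
  rw [mem_inner_iff]
  have e : cen ![0, N0 * p0.h1 c, N0 * p0.h2 c, N0 * c] = (c, 0, 0, 0) := by
    unfold cen
    simp [hN.ne']
  rw [e]
  have hk : p0.κ = 13 := rfl
  have h1 : 0 < p0.h1 c := by
    unfold Par.h1; rw [hk]; linarith
  have h2 : 1 < p0.h2 c := by
    unfold Par.h2; rw [hk]; linarith
  refine ⟨?_, ?_, ?_, ?_⟩
  · change |c| < (111 : ℝ)
    rw [abs_of_pos (by linarith)]; linarith
  · change |(0:ℝ)| < p0.u c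
    rw [abs_zero]
    unfold Par.u
    rw [abs_of_pos (show 0 < c by linarith)]
    simp only [p0]
    refine lt_min (by norm_num) (lt_min ?_ ?_) <;> linarith
  · change |(0:ℝ)| < p0.h2 c
    rw [abs_zero]; linarith
  · change |(0:ℝ)| < p0.W c 0
    rw [abs_zero]
    unfold Par.W Par.ins
    rw [abs_zero, sub_zero]
    rw [max_eq_left]
    · linarith
    · refine max_le ?_ ?_ <;> linarith

theorem noCscK0 : ¬ ∃ H, P0.IsToricCscK H := by
  rintro ⟨H, hH⟩
  have h1 := donaldson_crease_pos (P := P0) (d := 3) delzant0 hH 3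
    (c := N0 * Real.sqrt (3 * D0)) cut_meets
  have h2 : Continuous fun x : Fin 4 → ℝ => max 0 (x 3 - N0 * Real.sqrt (3 * D0)) := by
    fun_prop
  have h3 := donaldson_P0 h2
  have h4 : (fun q : ℝ × ℝ × ℝ × ℝ => max 0 (unc q 3 - N0 * Real.sqrt (3 * D0)))
      = fun q => (fun z => N0 * max 0 (z - Real.sqrt (3 * D0))) q.1 := by
    ext q
    change max 0 (N0 * q.1 - N0 * Real.sqrt (3 * D0)) = N0 * max 0 (q.1 - Real.sqrt (3 * D0))
    rw [mul_max_of_nonneg _ _ N0_pos.le, mul_zero, mul_sub]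
  rw [h4, L_fun_z good0 (h := fun z => N0 * max 0 (z - Real.sqrt (3 * D0)))
    (by fun_prop), L1_const_mul, L1_crease good0, mul_zero, mul_zero] at h3
  exact absurd h3 h1.ne'

end YTD
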