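import Pool.Agent.H827R2.R1
import Pool.Agent.H827R2.N1

/-!
# Part 1: `P0` is Delzant, toric K-polystable and has no torus invariant cscK metric
-/

namespace YTD

theorem part1 : P0.IsDelzant ∧ P0.ToricKPolystable ∧ ¬ ∃ H, P0.IsToricCscK H :=
  ⟨delzant0, toricKPolystable0, noCscK0⟩

end YTD
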