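import Pool.Agent.H827R2.K3
import Pool.Agent.H827R2.M19

/-!
# Part 3: `P0` is Delzant, K-stable with respect to all test configurations, and the polarised
toric manifold has no cscK metric at all
-/

namespace YTD

theorem part3 : P0.IsDelzant ∧ P0.KStable ∧ ¬ P0.HasCscK :=
  ⟨delzant0, kStable0, not_hasCscK0⟩

end YTD
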