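import Pool.Agent.H827R2.All3
import Pool.Agent.H827R2.FS

/-!
# Part 3, with the existence of Kähler metrics in the class
-/

namespace YTD

theorem part4 : P0.IsDelzant ∧ Nonempty (KahlerMetric P0) ∧ P0.KStable ∧ ¬ P0.HasCscK :=
  ⟨delzant0, FS.exists_kahlerMetric delzant0, kStable0, not_hasCscK0⟩

end YTD
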