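import Pool.Agent.H827R2.Core2

open MeasureTheory
open scoped Interval

namespace YTD.BP

variable {p : Par} {A D E δ ε : ℝ}

/-! ## F0: elementary facts on the fibres (task F0) -/

theorem IQ_one (hp : Good p A D E δ ε) {z : ℝ} (hz : |z| ≤ p.b) :
    p.IQ z (fun _ _ => 1) = p.area z := sorry

theorem BQ_one (z : ℝ) (hp : Good p A D E δ ε) : p.BQ z (fun _ _ => 1) = p.per := sorry

theorem convex_K (hp : Good p A D E δ ε) : Convex ℝ p.K := sorry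

theorem isCompact_K (hp : Good p A D E δ ε) : IsCompact p.K := sorry

theorem isOpen_Ko (hp : Good p A D E δ ε) : IsOpen p.Ko := sorry

theorem interior_K (hp : Good p A D E δ ε) : interior p.K = p.Ko := sorry

/-! ## F1: fibre inequality (task F1) -/

theorem fibre (hp : Good p A D E δ ε) {z : ℝ} (hz : |z| ≤ p.b)
    {φ : ℝ → ℝ → ℝ} (hφ : Continuous fun q : ℝ × ℝ => φ q.1 q.2)
    (hcv : ConvexOn ℝ {q : ℝ × ℝ | |q.1| ≤ p.h2 z ∧ |q.2| ≤ p.W z q.1} (fun q => φ q.1 q.2))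
    (he1 : ∀ y2 y1, φ y2 (-y1) = φ y2 y1) (he2 : ∀ y2 y1, φ (-y2) y1 = φ y2 y1) :
    (p.per - A * p.area z) * p.av δ z φ + ε * p.slY z φ ≤ p.BQ z φ - A * p.IQ z φ := sorry

theorem slY_nonneg (hp : Good p A D E δ ε) {z : ℝ} (hz : |z| ≤ p.b)
    {φ : ℝ → ℝ → ℝ} (hφ : Continuous fun q : ℝ × ℝ => φ q.1 q.2)
    (hcv : ConvexOn ℝ {q : ℝ × ℝ | |q.1| ≤ p.h2 z ∧ |q.2| ≤ p.W z q.1} (fun q => φ q.1 q.2))
    (he1 : ∀ y2 y1, φ y2 (-y1) = φ y2 y1) (he2 : ∀ y2 y1, φ (-y2) y1 = φ y2 y1) :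
    0 ≤ p.slY z φ := sorry

/-! ## F2: the inner average is at most the average (task F2) -/

theorem av_le (hp : Good p A D E δ ε) {z : ℝ} (hz : |z| ≤ p.b)
    {φ : ℝ → ℝ → ℝ} (hφ : Continuous fun q : ℝ × ℝ => φ q.1 q.2)
    (hcv : ConvexOn ℝ {q : ℝ × ℝ | |q.1| ≤ p.h2 z ∧ |q.2| ≤ p.W z q.1} (fun q => φ q.1 q.2))
    (he1 : ∀ y2 y1, φ y2 (-y1) = φ y2 y1) (he2 : ∀ y2 y1, φ (-y2) y1 = φ y2 y1) :
    p.area z * p.av δ z φ ≤ p.IQ z φ := sorry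

/-! ## O1: the one-dimensional inequality (task O1) -/

theorem z1_mem (hp : Good p A D E δ ε) : p.z1 A ∈ Set.Ioo p.m p.n := sorry

theorem L1_ge (hp : Good p A D E δ ε) {h : ℝ → ℝ} (hc : Continuous h)
    (hcv : ConvexOn ℝ (Set.Icc (-p.b) p.b) h) : p.S1 A D h ≤ p.L1 A h := sorry

theorem S1_nonneg (hp : Good p A D E δ ε) {h : ℝ → ℝ} (hc : Continuous h)
    (hcv : ConvexOn ℝ (Set.Icc (-p.b) p.b) h) : 0 ≤ p.S1 A D h := sorry

/-- the functional vanishes on the irrational crease, and on constants -/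
theorem L1_crease (hp : Good p A D E δ ε) :
    p.L1 A (fun z => max 0 (z - Real.sqrt (3 * D))) = 0 := sorry

theorem L1_one (hp : Good p A D E δ ε) : p.L1 A (fun _ => 1) = 0 := sorry

theorem L1_id (hp : Good p A D E δ ε) : p.L1 A (fun z => z) = 0 := sorry

/-! ## O2: rigidity in the one-dimensional inequality (task O2) -/

theorem S1_rigid (hp : Good p A D E δ ε) {h : ℝ → ℝ}
    (hcv : ConvexOn ℝ (Set.Ioo (-p.b) p.b) h) (hb : ∃ C, ∀ z ∈ Set.Ioo (-p.b) p.b, |h z| ≤ C)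
    (h0 : p.S1 A D h = 0) :
    ∃ a0 a1 a2 a3 : ℝ, 0 ≤ a2 ∧ 0 ≤ a3 ∧ ∀ z ∈ Set.Ioo (-p.b) p.b,
      h z = a0 + a1 * z + a2 * max 0 (z - Real.sqrt (3 * D))
        + a3 * max 0 (-z - Real.sqrt (3 * D)) := sorry

/-- a version of `S1_nonneg` for functions that are only convex in the open interval -/
theorem S1_nonneg' (hp : Good p A D E δ ε) {h : ℝ → ℝ}
    (hcv : ConvexOn ℝ (Set.Ioo (-p.b) p.b) h) (hb : ∃ C, ∀ z ∈ Set.Ioo (-p.b) p.b, |h z| ≤ C) :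
    0 ≤ p.S1 A D h := sorry

/-! ## X1: the `x`-direction (task X1) -/

theorem M2_ge (hp : Good p A D E δ ε) {F : ℝ → ℝ → ℝ}
    (hF : Continuous fun q : ℝ × ℝ => F q.1 q.2)
    (hcv : ConvexOn ℝ {q : ℝ × ℝ | |q.1| ≤ p.b ∧ |q.2| ≤ p.u q.1} (fun q => F q.1 q.2))
    (he : ∀ z x, F z (-x) = F z x) :
    p.L1 A (fun z => F z 0) +
      ε * (∫ z in (-p.b)..p.b, ∫ x in (-p.u z)..(p.u z), (F z x - F z 0)) ≤ p.M2 A F := sorry

/-! ## A1: assembly for even functions (task A1) -/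

theorem L_ge_even (hp : Good p A D E δ ε) {f : ℝ × ℝ × ℝ × ℝ → ℝ} (hf : Continuous f)
    (hcv : ConvexOn ℝ p.K f) (he : IsEven f) : p.Phi A D δ ε f ≤ p.L A f := sorry

/-! ## A2: symmetrisation (task A2) -/

theorem L_sym (hp : Good p A D E δ ε) {f : ℝ × ℝ × ℝ × ℝ → ℝ} (hf : Continuous f) :
    p.L A (Sym f) = p.L A f := sorry

theorem sym_convex (hp : Good p A D E δ ε) {f : ℝ × ℝ × ℝ × ℝ → ℝ}
    (hcv : ConvexOn ℝ p.K f) : ConvexOn ℝ p.K (Sym f) := sorry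

theorem sym_even (f : ℝ × ℝ × ℝ × ℝ → ℝ) : IsEven (Sym f) := sorry

theorem L_ge (hp : Good p A D E δ ε) {f : ℝ × ℝ × ℝ × ℝ → ℝ} (hf : Continuous f)
    (hcv : ConvexOn ℝ p.K f) : p.Phi A D δ ε (Sym f) ≤ p.L A f := sorry

/-! ## S1: structure of the functions with `Φ = 0` (task S1) -/

theorem Phi_rigid (hp : Good p A D E δ ε) {f : ℝ × ℝ × ℝ × ℝ → ℝ}
    (hcv : ConvexOn ℝ p.Ko f) (hb : ∃ C, ∀ q ∈ p.Ko, |f q| ≤ C)
    (h0 : p.Phi A D δ ε (Sym f) = 0) :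
    ∃ a0 az ax a2 a1 r s : ℝ, 0 ≤ r ∧ 0 ≤ s ∧ ∀ q ∈ p.Ko,
      f q = a0 + az * q.1 + ax * q.2.1 + a2 * q.2.2.1 + a1 * q.2.2.2
        + r * max 0 (q.1 - Real.sqrt (3 * D)) + s * max 0 (-q.1 - Real.sqrt (3 * D)) := sorry

theorem Phi_nonneg (hp : Good p A D E δ ε) {f : ℝ × ℝ × ℝ × ℝ → ℝ}
    (hcv : ConvexOn ℝ p.Ko f) (hb : ∃ C, ∀ q ∈ p.Ko, |f q| ≤ C) :
    0 ≤ p.Phi A D δ ε (Sym f) := sorry

/-! ## C1: values on the crease (task C1) -/

theorem L_fun_z (hp : Good p A D E δ ε) {h : ℝ → ℝ} (hc : Continuous h) :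
    p.L A (fun q => h q.1) = p.L1 A h := sorry

theorem L_one (hp : Good p A D E δ ε) : p.L A (fun _ => 1) = 0 := sorry

/-! ## G1: the explicit numbers (task G1) -/

theorem good0 : Good p0 A0 D0 E0 (13 / 5000) (1 / 10000) := sorry

theorem irr0 (r : ℚ) : Real.sqrt (3 * D0) ≠ r := sorry

/-! ## G2: the polytope is Delzant (task G2) -/

theorem delzant0 : P0.IsDelzant := sorry

/-! ## G3: integrals over `P0` (task G3) -/

theorem mem_carrier_iff (x : Fin 4 → ℝ) : x ∈ P0.sys.carrier ↔ cen x ∈ p0.K := sorry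

theorem mem_inner_iff (x : Fin 4 → ℝ) : x ∈ P0.sys.inner ↔ cen x ∈ p0.Ko := sorry

theorem volInt0 {f : (Fin 4 → ℝ) → ℝ} (hf : Continuous f) :
    P0.sys.volInt f = N0 ^ 4 * p0.I (fun q => f (unc q)) := sorry

theorem bdryInt0 {f : (Fin 4 → ℝ) → ℝ} (hf : Continuous f) :
    P0.sys.bdryInt f = N0 ^ 3 * p0.Bd (fun q => f (unc q)) := sorry

/-! ## D1: integral over facets does not depend on the projection (task D1) -/

theorem facetIntAux_eq {ι : Type} {d : ℕ} (S : Sys ι (d + 1)) (i : ι) {j k : Fin (d + 1)}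
    (hj : S.ν i j ≠ 0) (hk : S.ν i k ≠ 0) (f : (Fin (d + 1) → ℝ) → ℝ) :
    S.facetIntAux i j f = S.facetIntAux i k f := sorry

/-! ## D2: divergence theorem (task D2) -/

/-- `S` is a bounded polytope, the hyperplanes of the system are pairwise different. -/
structure _root_.YTD.Sys.IsNice {ι : Type} {d : ℕ} (S : Sys ι (d + 1)) : Prop where
  bdd : Bornology.IsBounded S.carrier
  ne : ∀ i, S.ν i ≠ 0
  indep : ∀ i k, i ≠ k → ¬ ∃ c : ℝ, S.ν i = c • S.ν k ∧ S.h i = c * S.h k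

theorem divergence {ι : Type} [Fintype ι] {d : ℕ} {S : Sys ι (d + 1)} (hS : S.IsNice)
    {U : Set (Fin (d + 1) → ℝ)} (hU : IsOpen U) (hSU : S.carrier ⊆ U)
    {f : (Fin (d + 1) → ℝ) → ℝ} (hf : ContDiffOn ℝ 1 f U) (j : Fin (d + 1)) :
    ∫ x in S.carrier, pd j f x = - ∑ i, S.ν i j * S.facetInt i f := sorry

/-! ## N1: no torus invariant cscK metric (task N1) -/

theorem noCscK0 : ¬ ∃ H, P0.IsToricCscK H := sorry

/-! ## R1: toric K-polystability (task R1) -/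

theorem toricKPolystable0 : P0.ToricKPolystable := sorry

end YTD.BP
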