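import Pool.Agent.H827R2.Core3
import Pool.Agent.H827R2.Blueprint1

open MeasureTheory Filter Topology Asymptotics
open scoped Interval BigOperators

namespace YTD.BP

/-! ## U1: weighted trapezoid inequality for concave functions -/

theorem trap {a b : ℤ} (hab : a ≤ b) {w w' w'' ψ : ℝ → ℝ} {W1 W2 C0 : ℝ}
    (hw : ∀ x ∈ Set.Icc (a : ℝ) b, HasDerivAt w (w' x) x)
    (hw' : ∀ x ∈ Set.Icc (a : ℝ) b, HasDerivAt w' (w'' x) x)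
    (h0 : ∀ x ∈ Set.Icc (a : ℝ) b, 0 ≤ w x)
    (h1 : ∀ x ∈ Set.Icc (a : ℝ) b, |w' x| ≤ W1) (h2 : ∀ x ∈ Set.Icc (a : ℝ) b, |w'' x| ≤ W2)
    (hψ : ConcaveOn ℝ (Set.Icc (a : ℝ) b) ψ) (hc : ContinuousOn ψ (Set.Icc (a : ℝ) b))
    (hb : ∀ x ∈ Set.Icc (a : ℝ) b, |ψ x| ≤ C0) :
    (∑ i ∈ Finset.Icc a b, w i * ψ i) - (w a * ψ a + w b * ψ b) / 2
      ≤ (∫ x in (a : ℝ)..b, w x * ψ x) + C0 * (W1 + W2 * (b - a)) := sorry

/-! ## U2: lattice sums over a chopped rectangle -/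

theorem fibre_sum {c1 c2 l1 l2 : ℤ} (hc2 : 0 < c2) (hc1 : c2 < c1) (h1 : 2 * (c1 + c2) < l1)
    (h2 : 2 * (c1 + c2) < l2) {g : ℝ → ℝ → ℝ} (hg : Continuous fun q : ℝ × ℝ => g q.1 q.2)
    (hcc : ConcaveOn ℝ (QF c1 c2 l1 l2) (fun q => g q.1 q.2)) {C0 : ℝ}
    (hb : ∀ q ∈ QF (c1 : ℝ) c2 l1 l2, |g q.1 q.2| ≤ C0) :
    ∑ y2 ∈ Finset.Icc 0 l2, ∑ y1 ∈ Finset.Icc (loZ c1 c2 l2 y2) (l1 - loZ c1 c2 l2 y2),
        g y2 y1
      ≤ IF c1 c2 l1 l2 g + 1 / 2 * BF c1 c2 l1 l2 g + 20 * C0 := sorry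

/-! ## U3: summation over `z` -/

theorem z_sum : ∃ c : ℝ, 0 ≤ c ∧ ∀ (J : IPar) (Λ : ℝ), J.Adm Λ →
    ∀ (g : ℝ × ℝ × ℝ × ℝ → ℝ), Continuous g → ConcaveOn ℝ J.body g →
    ∀ C0 : ℝ, (∀ q ∈ J.body, |g q| ≤ C0) → ∀ (x : ℝ) (Zx : ℤ), |x| ≤ J.S → 0 ≤ Zx →
      (Zx : ℝ) ≤ J.Z x →
      ∑ z ∈ Finset.Icc (-Zx) Zx, (J.YI g z x + 1 / 2 * J.YB g z x)
        ≤ (∫ z in (-(Zx : ℝ))..Zx, (J.YI g z x + 1 / 2 * J.YB g z x))
          + 1 / 2 * (J.YI g Zx x + J.YI g (-(Zx : ℝ)) x) + c * C0 * Λ := sorry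

/-! ## U4: summation over `x` -/

theorem x_sum : ∃ c : ℝ, 0 ≤ c ∧ ∀ (J : IPar) (Λ : ℝ), J.Adm Λ →
    ∀ (g : ℝ × ℝ × ℝ × ℝ → ℝ), Continuous g → ConcaveOn ℝ J.body g →
    ∀ C0 : ℝ, (∀ q ∈ J.body, |g q| ≤ C0) →
      ∑ x ∈ Finset.Icc (-J.S) J.S,
        ((∫ z in (-J.Z x)..(J.Z x), (J.YI g z x + 1 / 2 * J.YB g z x))
          + 1 / 2 * (J.YI g (J.Z x) x + J.YI g (-J.Z x) x))
        ≤ (∫ x in (-(J.S : ℝ))..J.S,
            ((∫ z in (-J.Z x)..(J.Z x), (J.YI g z x + 1 / 2 * J.YB g z x))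
              + 1 / 2 * (J.YI g (J.Z x) x + J.YI g (-J.Z x) x)))
          + 1 / 2 * (∫ z in (-J.Z J.S)..(J.Z J.S), (J.YI g z J.S + J.YI g z (-(J.S : ℝ))))
          + c * C0 * Λ ^ 2 := sorry

/-! ## U5: lattice sums over the dilates of `P0` -/

theorem lattice_sum_le : ∃ CU : ℝ, 0 ≤ CU ∧ ∀ g : ℝ × ℝ × ℝ × ℝ → ℝ, Continuous g →
    ConcaveOn ℝ p0.K g → ∀ C0 : ℝ, (∀ q ∈ p0.K, |g q| ≤ C0) → ∀ j : ℕ, 0 < j →
    ∑ᶠ m ∈ P0.pts j, g (xpt j m)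
      ≤ (j * N0) ^ 4 * p0.I g + 1 / 2 * (j * N0) ^ 3 * p0.Bd g + CU * C0 * (j : ℝ) ^ 2 := sorry

/-! ## V1: volume integrals and Riemann sums -/

theorem pts_finite (j : ℕ) : (P0.pts j).Finite := sorry

theorem xpt_mem {j : ℕ} (hj : 0 < j) {m : Fin 4 → ℤ} (hm : m ∈ P0.pts j) : xpt j m ∈ p0.K := sorry

theorem I_eq {g : ℝ × ℝ × ℝ × ℝ → ℝ} (hg : Continuous g) : p0.I g = ∫ q in p0.K, g q := sorry

theorem riemann {g : ℝ × ℝ × ℝ × ℝ → ℝ} (hg : ContinuousOn g p0.Ko)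
    (hb : ∃ C, ∀ q ∈ p0.K, |g q| ≤ C) :
    Tendsto (fun j : ℕ => (∑ᶠ m ∈ P0.pts j, g (xpt j m)) / (j * N0) ^ 4) atTop
      (𝓝 (∫ q in p0.K, g q)) := sorry

/-! ## H1: lattice points span `K` -/

theorem hull_dom {r k : ℕ} (hr : 0 < r) (hk : 0 < k) {q : ℝ × ℝ × ℝ × ℝ} (hq : q ∈ p0.K) :
    ∃ c : (Fin 4 → ℤ) →₀ ℝ, (∀ m, 0 ≤ c m) ∧
    (∀ m ∈ c.support, m ∈ (P0.dilate r).pts k) ∧
    (∑ m ∈ c.support, c m = 1) ∧ (∑ m ∈ c.support, c m • xpt (k * r) m = q) := sorry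

/-! ## H2: properties of the hull function -/

section hull
variable {r : ℕ} {G : ℕ → (Fin 4 → ℤ) → ℤ}

theorem hull_bdd (hr : 0 < r) {C : ℕ}
    (hC : ∀ k, ∀ m ∈ (P0.dilate r).pts k, |G k m| ≤ ((C * k : ℕ) : ℤ)) {k : ℕ} (hk : 0 < k)
    {q : ℝ × ℝ × ℝ × ℝ} (hq : q ∈ p0.K) : |hull r G k q| ≤ C := sorry

theorem hull_concave (hr : 0 < r) (hG : IsSys (P0.dilate r) G) {k : ℕ} (hk : 0 < k) :
    ConcaveOn ℝ p0.K (hull r G k) := sorry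

theorem le_hull (hr : 0 < r) (hG : IsSys (P0.dilate r) G) {k : ℕ} (hk : 0 < k) {m : Fin 4 → ℤ}
    (hm : m ∈ (P0.dilate r).pts k) : (G k m : ℝ) ≤ k * hull r G k (xpt (k * r) m) := sorry

theorem hull_le (hr : 0 < r) (hG : IsSys (P0.dilate r) G) {k : ℕ} (hk : 0 < k) :
    ∃ C : ℝ, ∀ j : ℕ, 0 < j → ∀ m ∈ (P0.dilate r).pts (j * k),
      j * k * hull r G k (xpt (j * k * r) m) - C ≤ (G (j * k) m : ℝ) := sorry

theorem hull_mono (hr : 0 < r) (hG : IsSys (P0.dilate r) G) {k j : ℕ} (hk : 0 < k) (hj : 0 < j)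
    {q : ℝ × ℝ × ℝ × ℝ} (hq : q ∈ p0.K) : hull r G k q ≤ hull r G (j * k) q := sorry

/-! ## H3: the shrunk hull function -/

theorem shull_spec (hr : 0 < r) (hG : IsSys (P0.dilate r) G) {C : ℕ}
    (hC : ∀ k, ∀ m ∈ (P0.dilate r).pts k, |G k m| ≤ ((C * k : ℕ) : ℤ)) {k : ℕ} (hk : 0 < k) :
    ∃ g : ℝ × ℝ × ℝ × ℝ → ℝ, Continuous g ∧ Set.EqOn g (shull r G k) p0.K ∧
      ConcaveOn ℝ p0.K g ∧ (∀ q ∈ p0.K, |g q| ≤ C) ∧
      (∀ q ∈ p0.K, hull r G k q ≤ g q + 2 * C / (k + 1 : ℝ) ^ 2) ∧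
      p0.I g ≤ (∫ q in p0.K, hull r G k q)
        + 100 * C * (volume p0.K).toReal / (k + 1 : ℝ) ^ 2 := sorry

end hull

/-! ## H4: combinatorial form of `DF ≥ 0` -/

theorem comb_DF {r : ℕ} (hr : 0 < r) {G : ℕ → (Fin 4 → ℤ) → ℤ} (hG : IsSys (P0.dilate r) G)
    {a0 a1 b0 b1 : ℝ}
    (hE : Expansion 4 (fun k => (((P0.dilate r).pts k).ncard : ℝ))
      (fun k => ∑ᶠ m ∈ (P0.dilate r).pts k, (G k m : ℝ)) a0 a1 b0 b1) :
    0 < a0 ∧ 0 ≤ a1 * b0 - a0 * b1 := sorry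

/-! ## E1: the extremal case, real form -/

theorem comb_eq_real {r : ℕ} (hr : 0 < r) {G : ℕ → (Fin 4 → ℤ) → ℤ} (hG : IsSys (P0.dilate r) G)
    {a0 a1 b0 b1 : ℝ}
    (hE : Expansion 4 (fun k => (((P0.dilate r).pts k).ncard : ℝ))
      (fun k => ∑ᶠ m ∈ (P0.dilate r).pts k, (G k m : ℝ)) a0 a1 b0 b1)
    (h0 : a1 * b0 - a0 * b1 = 0) :
    ∃ (v : Fin 5 → ℝ) (ρ σ : ℝ), 0 ≤ ρ ∧ 0 ≤ σ ∧
      (∀ k : ℕ, 0 < k → ∀ m ∈ (P0.dilate r).pts k,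
        (G k m : ℝ) ≤ k * crease v ρ σ (xpt (k * r) m)) ∧
      Tendsto (fun k : ℕ => (∑ᶠ m ∈ (P0.dilate r).pts k,
        (k * crease v ρ σ (xpt (k * r) m) - (G k m : ℝ))) / (k : ℝ) ^ 4) atTop (𝓝 0) := sorry

/-! ## E2: integrality excludes the irrational crease -/

theorem comb_eq {r : ℕ} (hr : 0 < r) {G : ℕ → (Fin 4 → ℤ) → ℤ}
    {v : Fin 5 → ℝ} {ρ σ : ℝ} (hρ : 0 ≤ ρ) (hσ : 0 ≤ σ)
    (h1 : ∀ k : ℕ, 0 < k → ∀ m ∈ (P0.dilate r).pts k,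
        (G k m : ℝ) ≤ k * crease v ρ σ (xpt (k * r) m))
    (h2 : Tendsto (fun k : ℕ => (∑ᶠ m ∈ (P0.dilate r).pts k,
        (k * crease v ρ σ (xpt (k * r) m) - (G k m : ℝ))) / (k : ℝ) ^ 4) atTop (𝓝 0)) :
    ∃ (a : Fin 4 → ℤ) (α : ℤ), ∀ k : ℕ, 0 < k → ∀ m : Fin 4 → ℤ,
        k * crease v ρ σ (xpt (k * r) m) = ((∑ i, a i * m i + α * k : ℤ) : ℝ) := sorry

/-! ## T1: initial exponents (general `P`) -/

section top
variable {n : ℕ} {P : LatPoly n} {Φ : Filt P}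

theorem exists_top (a : Fin n → ℤ) {s : Lau n} (hs : s ≠ 0) : ∃ m, IsTop a s m := sorry

theorem IsTop.unique {a : Fin n → ℤ} {s : Lau n} {m m' : Fin n → ℤ} (h : IsTop a s m)
    (h' : IsTop a s m') : m = m' := sorry

theorem IsTop.mul {a : Fin n → ℤ} {s t : Lau n} {m m' : Fin n → ℤ} (h : IsTop a s m)
    (h' : IsTop a t m') : IsTop a (s * t) (m + m') := sorry

theorem G_spec (hfin : ∀ k, (P.pts k).Finite) (a : Fin n → ℤ) {k : ℕ} {m : Fin n → ℤ}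
    (hm : m ∈ P.pts k) : ∃ s ∈ Φ.F (Φ.G a k m) k, IsTop a s m := sorry

theorem le_G (hfin : ∀ k, (P.pts k).Finite) (a : Fin n → ℤ) {k : ℕ} {l : ℤ} {s : Lau n}
    {m : Fin n → ℤ} (hs : s ∈ Φ.F l k) (ht : IsTop a s m) : m ∈ P.pts k ∧ l ≤ Φ.G a k m := sorry

/-- `dim F^l H⁰(L^k)` is the number of lattice points `m` with `G_k(m) ≥ l`. -/
theorem finrank_F (hfin : ∀ k, (P.pts k).Finite) (a : Fin n → ℤ) (k : ℕ) (l : ℤ) :
    Module.finrank ℂ (Φ.F l k) = {m | m ∈ P.pts k ∧ l ≤ Φ.G a k m}.ncard := sorry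

theorem secDim_eq (hfin : ∀ k, (P.pts k).Finite) (k : ℕ) :
    P.secDim k = ((P.pts k).ncard : ℝ) := sorry

theorem weight_eq (hfin : ∀ k, (P.pts k).Finite) (a : Fin n → ℤ) (k : ℕ) :
    Φ.weight k = ∑ᶠ m ∈ P.pts k, (Φ.G a k m : ℝ) := sorry

/-- the sum of the squares of the weights does not depend on the order -/
theorem sum_sq_eq (hfin : ∀ k, (P.pts k).Finite) (a a' : Fin n → ℤ) (k : ℕ) :
    ∑ᶠ m ∈ P.pts k, (Φ.G a k m : ℝ) ^ 2 = ∑ᶠ m ∈ P.pts k, (Φ.G a' k m : ℝ) ^ 2 := sorry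

theorem isSys_G (hfin : ∀ k, (P.pts k).Finite) (hb : Φ.LinBdd) (a : Fin n → ℤ) :
    IsSys P (fun k m => Φ.G a k m) := sorry

/-! ## T2: pairing -/

/-- the order defined by `a` maximises the pairing with `⟨a, ·⟩` -/
theorem pairing (hfin : ∀ k, (P.pts k).Finite) (a a' : Fin n → ℤ) (k : ℕ) :
    ∑ᶠ m ∈ P.pts k, (Φ.G a' k m : ℝ) * (∑ i, a i * m i : ℤ)
      ≤ ∑ᶠ m ∈ P.pts k, (Φ.G a k m : ℝ) * (∑ i, a i * m i : ℤ) := sorry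

end top

/-! ## E3: change of order -/

theorem change_order {r : ℕ} (hr : 0 < r) {Φ : Filt (P0.dilate r)} (hb : Φ.LinBdd)
    {a β : Fin 4 → ℤ} {α γ : ℤ} (h1 : IsFlat r (fun k m => Φ.G 0 k m) a α)
    (h2 : IsFlat r (fun k m => Φ.G a k m) β γ) : β = a := sorry

/-! ## K1: the Rees algebra -/

section rees
variable {n : ℕ} {P : LatPoly n} {Φ : Filt P}

instance : IsDomain (Big n) := sorry

theorem put_mem_rees {k : ℕ} {l : ℤ} {s : Lau n} : put n k l s ∈ Φ.rees ↔ s ∈ Φ.F l k := sorry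

theorem mem_rees_iff {a : Big n} : a ∈ Φ.rees ↔
    (∀ (k : ℕ) (l : ℤ), comp (k : ℤ) l a ∈ Φ.F l k) ∧ ∀ k l : ℤ, k < 0 → comp k l a = 0 := sorry

/-- a finitely generated Rees algebra has finitely many homogeneous generators -/
theorem exists_gens (hfg : Φ.rees.FG) : ∃ (ι : Type) (_ : Fintype ι) (k : ι → ℕ) (l : ι → ℤ)
    (s : ι → Lau n), (∀ i, s i ∈ Φ.F (l i) (k i)) ∧
      Φ.rees = Algebra.adjoin ℂ (Set.range fun i => put n (k i) (l i) (s i)) := sorry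

theorem linBdd_of_fg (hfg : Φ.rees.FG) : Φ.LinBdd := sorry

end rees

/-! ## B1: the norm lemma (commutative algebra) -/

/-- Let `S` be a finite subset of a finitely generated integrally closed domain `R` over `ℂ`
generating it as an algebra.  If `x ∈ Frac R` is not in `R` then there is `C` with:
if `a ≠ 0` is a polynomial of degree `≤ D` in the elements of `S` and `a x^i ∈ R` for `i ≤ j`,
then `j ≤ C (D + 1)`. -/
theorem norm_lemma {R : Type} [CommRing R] [IsDomain R] [Algebra ℂ R] [IsIntegrallyClosed R]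
    {σ : Type} [Fintype σ] (S : σ → R) (hS : Algebra.adjoin ℂ (Set.range S) = ⊤)
    {K : Type} [Field K] [Algebra R K] [IsFractionRing R K] {x : K}
    (hx : x ∉ Set.range (algebraMap R K)) :
    ∃ C : ℕ, ∀ (D j : ℕ) (F : MvPolynomial σ ℂ), F.totalDegree ≤ D →
      MvPolynomial.aeval S F ≠ 0 →
      (∀ i ≤ j, algebraMap R K (MvPolynomial.aeval S F) * x ^ i ∈ Set.range (algebraMap R K)) →
      j ≤ C * (D + 1) := sorry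

/-! ## B2: the product structure -/

/-- The algebraic part of the extremal case, general `P`: if the filtration is that of a test
configuration, `G^a_k(m) ≤ wt(k, m)` and the number of lattice points where this is strict
is `o(k^n)`, then the test configuration is a product.
`hgrow`: the number of lattice points of `kP` is `≥ c k^n`. -/
theorem product_of_flat {n : ℕ} {P : LatPoly n} (hfin : ∀ k, (P.pts k).Finite) {c : ℝ}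
    (hc : 0 < c) (hgrow : ∀ᶠ k : ℕ in atTop, c * (k : ℝ) ^ n ≤ (P.pts k).ncard)
    {Φ : Filt P} (hΦ : Φ.IsTestConfiguration) {a : Fin n → ℤ} {α : ℤ}
    (h1 : ∀ k : ℕ, ∀ m ∈ P.pts k, Φ.G a k m ≤ wt a α k m)
    (h2 : Tendsto (fun k : ℕ => ({m | m ∈ P.pts k ∧ Φ.G a k m ≠ wt a α k m}.ncard : ℝ)
      / (k : ℝ) ^ n) atTop (𝓝 0)) : Φ.IsProduct := sorry

/-! ## K2: product test configurations have `DF = 0` (given `DF ≥ 0` for all filtrations) -/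

theorem reverse_product {n : ℕ} {P : LatPoly n} (hfin : ∀ k, (P.pts k).Finite) {Φ : Filt P}
    (hb : Φ.LinBdd) (hp : Φ.IsProduct) :
    ∃ Ψ : Filt P, Ψ.LinBdd ∧ ∀ k, Ψ.weight k = - Φ.weight k := sorry

/-! ## K3: final assembly -/

theorem kStable0 : P0.KStable := sorry

end YTD.BP
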