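import Pool.Agent.H827R2.Core4

open MeasureTheory Filter Topology
open scoped BigOperators ContDiff ComplexConjugate

namespace YTD.BP

/-! ## M01: charts -/

section charts
variable {n : ℕ} {P : LatPoly n}

theorem chart_finite (P : LatPoly n) : Finite P.Chart := sorry

theorem chart_dual' (C : P.Chart) (j k : Fin n) :
    ∑ a, C.u a j * P.ν (C.σ a) k = if j = k then 1 else 0 := sorry

theorem chart_cover (hP : P.IsDelzant) (ξ : Fin n → ℝ) :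
    ∃ C : P.Chart, ∀ a, ∑ j, (C.u a j : ℝ) * ξ j ≤ 0 := sorry

theorem chart_facet (hP : P.IsDelzant) (i : Fin P.N) :
    ∃ (C : P.Chart) (a : Fin n), C.σ a = i := sorry

theorem chart_pos (hP : P.IsDelzant) (C : P.Chart) (i : Fin P.N) (hi : ∀ a, C.σ a ≠ i) :
    0 < ∑ j, P.ν i j * C.v j + P.h i := sorry

theorem chart_span (hP : P.IsDelzant) (l : Fin n → ℝ) (c : ℝ)
    (h : ∀ C : P.Chart, ∑ j, l j * (C.v j : ℝ) + c = 0) : l = 0 ∧ c = 0 := sorry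

theorem chart_max (C : P.Chart) {ξ : Fin n → ℝ} (h : ∀ a, ∑ j, (C.u a j : ℝ) * ξ j ≤ 0)
    {x : Fin n → ℝ} (hx : x ∈ P.sys.carrier) :
    ∑ j, x j * ξ j ≤ ∑ j, (C.v j : ℝ) * ξ j := sorry

theorem chart_decay (P : LatPoly n) : ∃ ε > 0, ∀ (C : P.Chart) (ξ : Fin n → ℝ),
    (∀ a, ∑ j, (C.u a j : ℝ) * ξ j ≤ 0) →
      ∑ a, ∑ j, (C.u a j : ℝ) * ξ j ≤ - ε * ‖ξ‖ := sorry

/-- the coordinates of a point of `P` at the vertex `v` -/
theorem chart_expand (C : P.Chart) (x : Fin n → ℝ) (j : Fin n) :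
    x j = C.v j + ∑ a, P.sys.ell (C.σ a) x * C.u a j := sorry

end charts

/-! ## M12: interface with part 3a (helper839) -/

theorem exists_invariant_logPot {n : ℕ} {P : LatPoly n} (hP : P.IsDelzant) (hR : P.NoRoots)
    (h : P.HasCscK) : ∃ (Ψ : (Fin n → ℂ) → ℝ) (c : ℂ), LogPot P Ψ ∧ AngleInv Ψ ∧
      ∀ ζ, scal Ψ ζ = c := sorry

/-! ## M13: the moment map takes values in the interior; quantitative positivity -/

section inv
variable {n : ℕ} {P : LatPoly n} {Ψ : (Fin n → ℂ) → ℝ}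

theorem smooth_re (hP : P.IsDelzant) (hΨ : LogPot P Ψ) :
    ContDiff ℝ ∞ fun ξ : Fin n → ℝ => Ψ (toC ξ) := sorry

theorem cHess_re (hP : P.IsDelzant) (hΨ : LogPot P Ψ) (hi : AngleInv Ψ) (ζ : Fin n → ℂ)
    (j k : Fin n) : cHess Ψ ζ j k = ((momH Ψ (fun l => (ζ l).re) j k / 2 : ℝ) : ℂ) := sorry

theorem momH_symm (hP : P.IsDelzant) (hΨ : LogPot P Ψ) (ξ : Fin n → ℝ) (j k : Fin n) :
    momH Ψ ξ j k = momH Ψ ξ k j := sorry

theorem momH_pos (hP : P.IsDelzant) (hΨ : LogPot P Ψ) (hi : AngleInv Ψ) (ξ v : Fin n → ℝ)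
    (hv : v ≠ 0) : 0 < ∑ j, ∑ k, momH Ψ ξ j k * v j * v k := sorry

theorem mom_mem (hP : P.IsDelzant) (hΨ : LogPot P Ψ) (hi : AngleInv Ψ) (ξ : Fin n → ℝ) :
    mom Ψ ξ ∈ P.sys.inner := sorry

theorem mom_pos (hP : P.IsDelzant) (hΨ : LogPot P Ψ) (hi : AngleInv Ψ) :
    ∃ c > 0, ∀ (C : P.Chart) (ξ : Fin n → ℝ), (∀ a, ∑ j, (C.u a j : ℝ) * ξ j ≤ 0) →
      (∀ a, c * Real.exp (2 * ∑ j, (C.u a j : ℝ) * ξ j) ≤ P.sys.ell (C.σ a) (mom Ψ ξ)) ∧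
      ∀ i, (∀ a, C.σ a ≠ i) → c ≤ P.sys.ell i (mom Ψ ξ) := sorry

/-! ## M14: the moment map is a diffeomorphism onto the interior -/

theorem mom_inv (hP : P.IsDelzant) (hΨ : LogPot P Ψ) (hi : AngleInv Ψ) :
    ∃ Ξ : (Fin n → ℝ) → (Fin n → ℝ), ContDiffOn ℝ ∞ Ξ P.sys.inner ∧
      (∀ x ∈ P.sys.inner, mom Ψ (Ξ x) = x) ∧ ∀ ξ, Ξ (mom Ψ ξ) = ξ := sorry

/-! ## M15: smooth invariant functions are Lipschitz functions of the moment map -/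

theorem mom_lip (hP : P.IsDelzant) (hΨ : LogPot P Ψ) (hi : AngleInv Ψ)
    {F : (Fin n → ℂ) → ℂ} (hF : TameFn P F) (hFi : AngleInv F) :
    ∃ K, ∀ ξ η : Fin n → ℝ, ‖F (toC ξ) - F (toC η)‖ ≤ K * ‖mom Ψ ξ - mom Ψ η‖ := sorry

/-! ## M16: the Hessian and the Ricci potential field -/

theorem tame_momH (hP : P.IsDelzant) (hΨ : LogPot P Ψ) (hi : AngleInv Ψ) (j k : Fin n) :
    TameFn P fun ζ => (momH Ψ (fun l => (ζ l).re) j k : ℂ) := sorry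

theorem tame_momV (hP : P.IsDelzant) (hΨ : LogPot P Ψ) (hi : AngleInv Ψ) (j : Fin n) :
    TameFn P fun ζ => (momV Ψ (fun l => (ζ l).re) j : ℂ) := sorry

theorem bdry_est (hP : P.IsDelzant) (hΨ : LogPot P Ψ) (hi : AngleInv Ψ) :
    ∃ K, ∀ (ξ : Fin n → ℝ) (a : Fin P.N),
      (∀ j, (∑ k, momH Ψ ξ j k * (P.ν a k : ℝ)) ^ 2 ≤ K * P.sys.ell a (mom Ψ ξ)) ∧
      (∑ j, momV Ψ ξ j * (P.ν a j : ℝ) - 2) ^ 2 ≤ K * P.sys.ell a (mom Ψ ξ) := sorry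

end inv

/-! ## M17: the momentum profile of an invariant metric of constant scalar curvature -/

section W
variable {d : ℕ} {P : LatPoly (d + 1)}

theorem weakCsc_of {Ψ : (Fin (d + 1) → ℂ) → ℝ} (hP : P.IsDelzant) (hΨ : LogPot P Ψ)
    (hi : AngleInv Ψ) {c : ℂ} (hc : ∀ ζ, scal Ψ ζ = c) : ∃ H V, WeakCsc P H V := sorry

/-! ## M18: Donaldson's functional is positive on creases -/

theorem crease_pos_weak (hP : P.IsDelzant)
    {H : Fin (d + 1) → Fin (d + 1) → (Fin (d + 1) → ℝ) → ℝ}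
    {V : Fin (d + 1) → (Fin (d + 1) → ℝ) → ℝ} (hH : WeakCsc P H V) (jz : Fin (d + 1)) {c : ℝ}
    (hcut : ∃ x ∈ P.sys.inner, x jz = c) :
    0 < P.sys.donaldson fun x => max 0 (x jz - c) := sorry

end W

/-! ## M19: `P0` has no roots; final assembly -/

theorem noRoots0 : P0.NoRoots := sorry

theorem not_hasCscK0 : ¬ P0.HasCscK := sorry

end YTD.BP
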