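import Pool.Agent.H827R2.H2
import Pool.Agent.H827R2.A2b
import Pool.Agent.H827R2.C1
import Pool.Agent.H827R2.G1
import Pool.Agent.H827R2.U5

/-!
# H4a: the coefficients `a0`, `a1`
-/

open MeasureTheory Filter Topology Asymptotics
open scoped Interval BigOperators

namespace YTD.H4

theorem coeffs_unique {N : ℕ → ℝ} {a0 a1 α β C : ℝ}
    (h1 : (fun k : ℕ => N k - (a0 * (k : ℝ) ^ 4 + a1 * (k : ℝ) ^ 3)) =o[atTop]
      fun k : ℕ => (k : ℝ) ^ 3)
    (h2 : ∀ k : ℕ, 0 < k → |N k - (α * (k : ℝ) ^ 4 + β * (k : ℝ) ^ 3)| ≤ C * (k : ℝ) ^ 2) :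
    a0 = α ∧ a1 = β := by
  have t1 := h1.tendsto_div_nhds_zero
  have t2 : Tendsto (fun k : ℕ => (N k - (α * (k : ℝ) ^ 4 + β * (k : ℝ) ^ 3)) / (k : ℝ) ^ 3) atTop
      (𝓝 0) := by
    have h3 : Tendsto (fun k : ℕ => C * (1 / (k : ℝ))) atTop (𝓝 (C * 0)) :=
      tendsto_one_div_atTop_nhds_zero_nat.const_mul C
    rw [mul_zero] at h3
    refine squeeze_zero_norm' ?_ h3
    filter_upwards [eventually_gt_atTop 0] with k hk
    have hk' : (0 : ℝ) < k := by exact_mod_cast hk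
    rw [Real.norm_eq_abs, abs_div, abs_of_pos (pow_pos hk' 3), div_le_iff₀ (pow_pos hk' 3)]
    refine (h2 k hk).trans (le_of_eq ?_)
    field_simp
  have t3 : Tendsto (fun k : ℕ => (α - a0) * (k : ℝ) + (β - a1)) atTop (𝓝 (0 - 0)) := by
    refine (t1.sub t2).congr' ?_
    filter_upwards [eventually_gt_atTop 0] with k hk
    have hk' : (0 : ℝ) < k := by exact_mod_cast hk
    field_simp
    ring
  rw [sub_zero] at t3
  have e0 : α - a0 = 0 := by
    have t4 : Tendsto (fun k : ℕ => ((α - a0) * (k : ℝ) + (β - a1)) * (1 / (k : ℝ))) atTop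
        (𝓝 (0 * 0)) := t3.mul tendsto_one_div_atTop_nhds_zero_nat
    have t5 : Tendsto (fun k : ℕ => (α - a0) + (β - a1) * (1 / (k : ℝ))) atTop
        (𝓝 ((α - a0) + (β - a1) * 0)) :=
      tendsto_const_nhds.add (tendsto_one_div_atTop_nhds_zero_nat.const_mul _)
    have t6 : Tendsto (fun k : ℕ => ((α - a0) * (k : ℝ) + (β - a1)) * (1 / (k : ℝ))) atTop
        (𝓝 ((α - a0) + (β - a1) * 0)) := by
      refine t5.congr' ?_
      filter_upwards [eventually_gt_atTop 0] with k hk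
      have hk' : (0 : ℝ) < k := by exact_mod_cast hk
      field_simp
    have := tendsto_nhds_unique t6 t4
    simpa using this
  refine ⟨by linarith, ?_⟩
  have t7 : Tendsto (fun _ : ℕ => β - a1) atTop (𝓝 0) := by
    refine t3.congr fun k => ?_
    rw [e0]; ring
  have := tendsto_nhds_unique t7 (tendsto_const_nhds (x := β - a1))
  linarith

theorem I_neg_one : p0.I (fun _ => -1) = - p0.I (fun _ => 1) := by
  unfold Par.I Par.IQ
  simp only [intervalIntegral.integral_const, smul_eq_mul, mul_neg, mul_one,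
    intervalIntegral.integral_neg]

theorem Bd_neg_one : p0.Bd (fun _ => -1) = - p0.Bd (fun _ => 1) := by
  have h : p0.L A0 (fun q => (-1 : ℝ) * (1 : ℝ)) = (-1 : ℝ) * p0.L A0 (fun _ => 1) :=
    A2.L_smul (-1) (fun _ => (1 : ℝ))
  rw [mul_one] at h
  unfold Par.L at h
  rw [I_neg_one] at h
  linarith

theorem I_one_pos : 0 < p0.I (fun _ => 1) := by
  rw [I_eq continuous_const, setIntegral_const, smul_eq_mul, mul_one]
  have h0 : (0 : ℝ × ℝ × ℝ × ℝ) ∈ interior p0.K := by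
    rw [interior_K good0, F0.mem_Ko_iff]
    norm_num [p0, N0]
  have h1 : 0 < volume (interior p0.K) := isOpen_interior.measure_pos volume ⟨0, h0⟩
  have h2 : volume (interior p0.K) ≤ volume p0.K := measure_mono interior_subset
  have h3 : volume p0.K < ⊤ := (isCompact_K good0).measure_lt_top
  exact ENNReal.toReal_pos (h1.trans_le h2).ne' h3.ne

theorem exp_coeffs {r : ℕ} (hr : 0 < r) {w : ℕ → ℝ} {a0 a1 b0 b1 : ℝ}
    (hE : Expansion 4 (fun k => (((P0.dilate r).pts k).ncard : ℝ)) w a0 a1 b0 b1) :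
    0 < a0 ∧ a1 = a0 * A0 / (2 * (r * N0)) := by
  have hN0 : (0 : ℝ) < N0 := by unfold N0; norm_num
  have hr' : (0 : ℝ) < r := by exact_mod_cast hr
  have hR : (0 : ℝ) < r * N0 := mul_pos hr' hN0
  obtain ⟨CU, hCU, hU⟩ := lattice_sum_le
  have hN : ∀ k : ℕ, 0 < k → |((((P0.dilate r).pts k).ncard : ℕ) : ℝ)
      - (((r * N0) ^ 4 * p0.I fun _ => 1) * (k : ℝ) ^ 4
        + (1 / 2 * (r * N0) ^ 3 * p0.Bd fun _ => 1) * (k : ℝ) ^ 3)|
      ≤ (CU * (r : ℝ) ^ 2) * (k : ℝ) ^ 2 := by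
    intro k hk
    have hk' : (0 : ℝ) < k := by exact_mod_cast hk
    have hkr : 0 < k * r := Nat.mul_pos hk hr
    have hpts : (P0.dilate r).pts k = P0.pts (k * r) := H2aux.pts_dilate r k
    have hfin := pts_finite (k * r)
    have e1 : ∑ᶠ m ∈ P0.pts (k * r), (1 : ℝ) = ((P0.pts (k * r)).ncard : ℝ) := by
      rw [finsum_mem_eq_finite_toFinset_sum _ hfin, Finset.sum_const, nsmul_eq_mul, mul_one,
        Set.ncard_eq_toFinset_card _ hfin]
    have e2 : ∑ᶠ m ∈ P0.pts (k * r), (-1 : ℝ) = - ((P0.pts (k * r)).ncard : ℝ) := by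
      rw [finsum_mem_eq_finite_toFinset_sum _ hfin, Finset.sum_const, nsmul_eq_mul,
        Set.ncard_eq_toFinset_card _ hfin]
      ring
    have u1 := hU (fun _ => 1) continuous_const (concaveOn_const 1 (convex_K good0)) 1
      (fun q _ => by norm_num) (k * r) hkr
    have u2 := hU (fun _ => -1) continuous_const (concaveOn_const (-1) (convex_K good0)) 1
      (fun q _ => by norm_num) (k * r) hkr
    rw [e1] at u1
    rw [e2, I_neg_one, Bd_neg_one] at u2
    rw [hpts, abs_le]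
    push_cast at u1 u2 ⊢
    constructor <;> nlinarith
  obtain ⟨h0, h1⟩ := coeffs_unique hE.dim hN
  have hL : p0.Bd (fun _ => 1) = A0 * p0.I (fun _ => 1) := by
    have := L_one good0
    unfold Par.L at this
    linarith
  have hI := I_one_pos
  refine ⟨by rw [h0]; positivity, ?_⟩
  rw [h1, h0, hL]
  field_simp

end YTD.H4
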