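import Pool.Agent.H827R2.H3
import Pool.Agent.H827R2.A2b
import Pool.Agent.H827R2.S1
import Pool.Agent.H827R2.C1
import Pool.Agent.H827R2.G1
import Pool.Agent.H827R2.U5

/-!
# H4c: `DF ≥ 0` from the three estimates
-/

open MeasureTheory Filter Topology Asymptotics
open scoped Interval BigOperators

namespace YTD.H4

/-- `Bd g ≤ A0 I g` for concave `g` -/
theorem Bd_le {g : ℝ × ℝ × ℝ × ℝ → ℝ} (hg : Continuous g) (hc : ConcaveOn ℝ p0.K g) :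
    p0.Bd g ≤ A0 * p0.I g := by
  have hcv : ConvexOn ℝ p0.K (fun q => (-1 : ℝ) * g q) := by
    have := hc.neg
    have e : (fun q => (-1 : ℝ) * g q) = -g := by funext q; simp
    rw [e]
    exact this
  have hcont : Continuous fun q => (-1 : ℝ) * g q := continuous_const.mul hg
  have h1 := L_ge good0 hcont hcv
  have hKo : ConvexOn ℝ p0.Ko (fun q => (-1 : ℝ) * g q) := by
    refine hcv.subset (Ko_subset_K p0) ?_
    rw [← interior_K good0]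
    exact (convex_K good0).interior
  have hb : ∃ C, ∀ q ∈ p0.Ko, |(-1 : ℝ) * g q| ≤ C := by
    obtain ⟨C, hC⟩ := (isCompact_K good0).exists_bound_of_continuousOn hcont.continuousOn
    exact ⟨C, fun q hq => by simpa using hC q (Ko_subset_K p0 hq)⟩
  have h2 := Phi_nonneg good0 hKo hb
  have h3 := h2.trans h1
  have h4 : p0.L A0 (fun q => (-1 : ℝ) * g q) = (-1 : ℝ) * p0.L A0 g := A2.L_smul (-1) g
  rw [h4] at h3
  unfold Par.L at h3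
  linarith

theorem comb_DF_of {r : ℕ} (hr : 0 < r) {G : ℕ → (Fin 4 → ℤ) → ℤ} (hG : IsSys (P0.dilate r) G)
    {a0 a1 b0 b1 : ℝ}
    (hE : Expansion 4 (fun k => (((P0.dilate r).pts k).ncard : ℝ))
      (fun k => ∑ᶠ m ∈ (P0.dilate r).pts k, (G k m : ℝ)) a0 a1 b0 b1)
    (exp_coeffs : 0 < a0 ∧ a1 = a0 * A0 / (2 * (r * N0)))
    (weight_le : ∀ {C : ℕ} (_ : ∀ k, ∀ m ∈ (P0.dilate r).pts k, |G k m| ≤ ((C * k : ℕ) : ℤ)),
      ∃ C' : ℝ, 0 ≤ C' ∧ ∀ k : ℕ, 0 < k → ∀ g : ℝ × ℝ × ℝ × ℝ → ℝ, Continuous g →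
      ConcaveOn ℝ p0.K g → (∀ q ∈ p0.K, |g q| ≤ C) →
      (∀ q ∈ p0.K, hull r G k q ≤ g q + 2 * C / (k + 1 : ℝ) ^ 2) →
      ∑ᶠ m ∈ (P0.dilate r).pts k, (G k m : ℝ) ≤
        k * ((k * (r * N0)) ^ 4 * p0.I g + 1 / 2 * (k * (r * N0)) ^ 3 * p0.Bd g)
          + C' * (k : ℝ) ^ 3)
    (b0_ge : ∀ {k : ℕ} (_ : 0 < k), (r * N0) ^ 4 * ∫ q in p0.K, hull r G k q ≤ b0) :
    0 < a0 ∧ 0 ≤ a1 * b0 - a0 * b1 := by
  obtain ⟨ha0, ha1⟩ := exp_coeffs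
  refine ⟨ha0, ?_⟩
  obtain ⟨C, hC⟩ := hG.bdd
  obtain ⟨C', hC'0, hC'⟩ := weight_le hC
  have hN0 : (0 : ℝ) < N0 := by unfold N0; norm_num
  have hr' : (0 : ℝ) < r := by exact_mod_cast hr
  have hR : (0 : ℝ) < r * N0 := mul_pos hr' hN0
  set R : ℝ := r * N0 with hRdef
  have hA0 : (0 : ℝ) < A0 := by unfold A0; norm_num
  set vol : ℝ := (volume p0.K).toReal with hvol
  have hv0 : 0 ≤ vol := ENNReal.toReal_nonneg
  -- main estimate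
  set E : ℝ := (R ^ 4 + 1 / 2 * R ^ 3 * A0) * (100 * C * vol) + C' with hEdef
  have hE0 : 0 ≤ E := by positivity
  have key : ∀ k : ℕ, 0 < k → (∑ᶠ m ∈ (P0.dilate r).pts k, (G k m : ℝ)) ≤
      b0 * (k : ℝ) ^ 5 + (A0 * b0 / (2 * R)) * (k : ℝ) ^ 4 + E * (k : ℝ) ^ 3 := by
    intro k hk
    obtain ⟨g, hg, -, hgc, hgC, hgl, hgI⟩ := shull_spec hr hG hC hk
    have h1 := hC' k hk g hg hgc hgC hgl
    have h2 := Bd_le hg hgc
    have h3 := b0_ge hk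
    set J : ℝ := ∫ q in p0.K, hull r G k q with hJ
    have hk' : (0 : ℝ) < k := by exact_mod_cast hk
    have hk1 : (1 : ℝ) ≤ k := by exact_mod_cast hk
    have h4 : 100 * C * vol / (k + 1 : ℝ) ^ 2 ≤ 100 * C * vol / (k : ℝ) ^ 2 := by
      apply div_le_div_of_nonneg_left (by positivity) (by positivity)
      nlinarith
    have h5 : p0.I g ≤ J + 100 * C * vol / (k : ℝ) ^ 2 := hgI.trans (by linarith)
    have h6 : (k * R) ^ 4 * p0.I g + 1 / 2 * (k * R) ^ 3 * p0.Bd g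
        ≤ ((k * R) ^ 4 + 1 / 2 * (k * R) ^ 3 * A0) * p0.I g := by
      have : 1 / 2 * (k * R) ^ 3 * p0.Bd g ≤ 1 / 2 * (k * R) ^ 3 * (A0 * p0.I g) :=
        mul_le_mul_of_nonneg_left h2 (by positivity)
      linarith
    have h7 : ((k * R) ^ 4 + 1 / 2 * (k * R) ^ 3 * A0) * p0.I g
        ≤ ((k * R) ^ 4 + 1 / 2 * (k * R) ^ 3 * A0) * (J + 100 * C * vol / (k : ℝ) ^ 2) :=
      mul_le_mul_of_nonneg_left h5 (by positivity)
    have h8 : k * ((k * R) ^ 4 * p0.I g + 1 / 2 * (k * R) ^ 3 * p0.Bd g)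
        ≤ k * (((k * R) ^ 4 + 1 / 2 * (k * R) ^ 3 * A0) * (J + 100 * C * vol / (k : ℝ) ^ 2)) :=
      mul_le_mul_of_nonneg_left (h6.trans h7) hk'.le
    have h9 : k * (((k * R) ^ 4 + 1 / 2 * (k * R) ^ 3 * A0) * (J + 100 * C * vol / (k : ℝ) ^ 2))
        = (k ^ 5 + k ^ 4 * (A0 / (2 * R))) * (R ^ 4 * J)
          + (R ^ 4 * k ^ 3 + 1 / 2 * R ^ 3 * A0 * k ^ 2) * (100 * C * vol) := by
      field_simp
    have h10 : (k ^ 5 + k ^ 4 * (A0 / (2 * R))) * (R ^ 4 * J)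
        ≤ (k ^ 5 + k ^ 4 * (A0 / (2 * R))) * b0 := mul_le_mul_of_nonneg_left h3 (by positivity)
    have h11 : (R ^ 4 * k ^ 3 + 1 / 2 * R ^ 3 * A0 * k ^ 2) * (100 * C * vol)
        ≤ (R ^ 4 + 1 / 2 * R ^ 3 * A0) * (100 * C * vol) * (k : ℝ) ^ 3 := by
      have : (k : ℝ) ^ 2 ≤ (k : ℝ) ^ 3 := pow_le_pow_right₀ hk1 (by norm_num)
      have h12 : 1 / 2 * R ^ 3 * A0 * (k : ℝ) ^ 2 ≤ 1 / 2 * R ^ 3 * A0 * (k : ℝ) ^ 3 :=
        mul_le_mul_of_nonneg_left this (by positivity)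
      have h13 : (R ^ 4 * k ^ 3 + 1 / 2 * R ^ 3 * A0 * k ^ 2) * (100 * C * vol)
          ≤ (R ^ 4 * k ^ 3 + 1 / 2 * R ^ 3 * A0 * (k : ℝ) ^ 3) * (100 * C * vol) :=
        mul_le_mul_of_nonneg_right (by linarith) (by positivity)
      refine h13.trans (le_of_eq ?_)
      ring
    have h14 : (k ^ 5 + k ^ 4 * (A0 / (2 * R))) * b0
        = b0 * (k : ℝ) ^ 5 + (A0 * b0 / (2 * R)) * (k : ℝ) ^ 4 := by
      ring
    have h15 : E * (k : ℝ) ^ 3 = (R ^ 4 + 1 / 2 * R ^ 3 * A0) * (100 * C * vol) * (k : ℝ) ^ 3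
        + C' * (k : ℝ) ^ 3 := by rw [hEdef]; ring
    linarith
  -- compare with the expansion
  have hw := hE.wt
  have hlim : Tendsto (fun k : ℕ => ((∑ᶠ m ∈ (P0.dilate r).pts k, (G k m : ℝ))
      - (b0 * (k : ℝ) ^ (4 + 1) + b1 * (k : ℝ) ^ 4)) / (k : ℝ) ^ 4) atTop (𝓝 0) :=
    hw.tendsto_div_nhds_zero
  have hlim2 : Tendsto (fun k : ℕ => (A0 * b0 / (2 * R) - b1) + E * (1 / (k : ℝ))) atTop
      (𝓝 ((A0 * b0 / (2 * R) - b1) + E * 0)) :=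
    tendsto_const_nhds.add (tendsto_one_div_atTop_nhds_zero_nat.const_mul E)
  have hle : (0 : ℝ) ≤ (A0 * b0 / (2 * R) - b1) + E * 0 := by
    refine le_of_tendsto_of_tendsto hlim hlim2 ?_
    filter_upwards [eventually_gt_atTop 0] with k hk
    have hk' : (0 : ℝ) < k := by exact_mod_cast hk
    rw [div_le_iff₀ (by positivity)]
    have := key k hk
    have e : ((A0 * b0 / (2 * R) - b1) + E * (1 / (k : ℝ))) * (k : ℝ) ^ 4
        = (A0 * b0 / (2 * R)) * (k : ℝ) ^ 4 - b1 * (k : ℝ) ^ 4 + E * (k : ℝ) ^ 3 := by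
      field_simp
    rw [e]
    norm_num
    linarith
  have h16 : a1 * b0 - a0 * b1 = a0 * (A0 * b0 / (2 * R) - b1) := by
    rw [ha1]; ring
  rw [h16]
  apply mul_nonneg ha0.le
  linarith

end YTD.H4
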