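import Pool.Agent.H827R2.F0
import Pool.Agent.H827R2.A2b
import Pool.Agent.H827R2.S1
import Pool.Agent.H827R2.C1
import Pool.Agent.H827R2.G1
import Pool.Agent.H827R2.G2
import Pool.Agent.H827R2.G3

/-!
# Toric K-polystability of `P0` (task R1)
-/

open MeasureTheory Filter
open scoped Interval Topology

namespace YTD.R1

/-! ### maxima of finitely many rational affine functions of one variable -/

theorem rat_of_affine {K : ℕ} (α β : Fin (K + 1) → ℚ) {J : Set ℝ} (hJ : J.Infinite) {A B : ℝ}
    (h : ∀ z ∈ J, Finset.univ.sup' Finset.univ_nonempty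
      (fun i => (α i : ℝ) * z + (β i : ℝ)) = A + B * z) :
    ∃ i, B = (α i : ℝ) ∧ A = (β i : ℝ) := by
  have key : ∀ z : J, ∃ i, A + B * (z : ℝ) = (α i : ℝ) * z + (β i : ℝ) := by
    intro z
    obtain ⟨i, -, hi⟩ := Finset.exists_mem_eq_sup' (Finset.univ_nonempty (α := Fin (K + 1)))
      (fun i => (α i : ℝ) * (z : ℝ) + (β i : ℝ))
    exact ⟨i, by rw [← hi, h z z.2]⟩
  choose ix hix using key
  have : Infinite J := hJ.to_subtype
  obtain ⟨z, z', hne, he⟩ := Finite.exists_ne_map_eq_of_infinite ix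
  have h1 := hix z
  have h2 := hix z'
  rw [← he] at h2
  have hne' : (z : ℝ) - z' ≠ 0 := fun h0 => hne (Subtype.ext (by linarith))
  have hB : B = (α (ix z) : ℝ) := by
    have : (B - (α (ix z) : ℝ)) * ((z : ℝ) - z') = 0 := by linear_combination h1 - h2
    rcases mul_eq_zero.mp this with h3 | h3
    · linarith
    · exact absurd h3 hne'
  refine ⟨ix z, hB, ?_⟩
  rw [hB] at h1
  linarith

/-! ### generalities on `donaldson` -/

section general
variable {ι : Type} [Fintype ι] {d : ℕ} (S : Sys ι (d + 1))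

theorem _root_.YTD.Sys.r1_continuous_ell {ι : Type} {n : ℕ} (S : Sys ι n) (i : ι) :
    Continuous (S.ell i) := by
  unfold Sys.ell
  fun_prop

theorem _root_.YTD.Sys.r1_isClosed_carrier {ι : Type} {n : ℕ} (S : Sys ι n) :
    IsClosed S.carrier := by
  have : S.carrier = ⋂ i, {x | 0 ≤ S.ell i x} := by
    ext x; simp [Sys.carrier]
  rw [this]
  exact isClosed_iInter fun i => isClosed_le continuous_const (S.r1_continuous_ell i)

theorem _root_.YTD.Sys.r1_isOpen_inner {ι : Type} [Finite ι] {n : ℕ} (S : Sys ι n) :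
    IsOpen S.inner := by
  have : S.inner = ⋂ i, {x | 0 < S.ell i x} := by
    ext x; simp [Sys.inner]
  rw [this]
  exact isOpen_iInter_of_finite fun i => isOpen_lt continuous_const (S.r1_continuous_ell i)

theorem _root_.YTD.Sys.r1_inner_subset {ι : Type} {n : ℕ} (S : Sys ι n) :
    S.inner ⊆ S.carrier := fun _ hx i => (hx i).le

theorem _root_.YTD.Sys.r1_bdryInt_congr {f g : (Fin (d + 1) → ℝ) → ℝ}
    (h : ∀ x ∈ S.carrier, f x = g x) : S.bdryInt f = S.bdryInt g := by
  unfold Sys.bdryInt Sys.facetInt Sys.facetIntAux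
  refine Finset.sum_congr rfl fun i _ => ?_
  congr 2
  ext y
  by_cases hy : S.hpt i (pivot (S.ν i)) y ∈ S.carrier
  · rw [Set.indicator_of_mem (by exact hy), Set.indicator_of_mem (by exact hy)]
    exact h _ hy
  · rw [Set.indicator_of_notMem (by exact hy), Set.indicator_of_notMem (by exact hy)]

omit [Fintype ι] in
theorem _root_.YTD.Sys.r1_volInt_congr {f g : (Fin (d + 1) → ℝ) → ℝ}
    (h : ∀ x ∈ S.carrier, f x = g x) : S.volInt f = S.volInt g :=
  setIntegral_congr_fun S.r1_isClosed_carrier.measurableSet h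

theorem _root_.YTD.Sys.r1_donaldson_congr {f g : (Fin (d + 1) → ℝ) → ℝ}
    (h : ∀ x ∈ S.carrier, f x = g x) : S.donaldson f = S.donaldson g := by
  unfold Sys.donaldson
  rw [S.r1_bdryInt_congr h, S.r1_volInt_congr h]

theorem _root_.YTD.Sys.r1_bdryInt_neg (f : (Fin (d + 1) → ℝ) → ℝ) :
    S.bdryInt (fun x => -f x) = -S.bdryInt f := by
  unfold Sys.bdryInt Sys.facetInt Sys.facetIntAux
  rw [← Finset.sum_neg_distrib]
  refine Finset.sum_congr rfl fun i _ => ?_
  rw [← mul_neg, ← integral_neg]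
  congr 2
  ext y
  by_cases hy : S.hpt i (pivot (S.ν i)) y ∈ S.carrier
  · rw [Set.indicator_of_mem (by exact hy), Set.indicator_of_mem (by exact hy)]
  · rw [Set.indicator_of_notMem (by exact hy), Set.indicator_of_notMem (by exact hy), neg_zero]

omit [Fintype ι] in
theorem _root_.YTD.Sys.r1_volInt_neg (f : (Fin (d + 1) → ℝ) → ℝ) :
    S.volInt (fun x => -f x) = -S.volInt f := by
  unfold Sys.volInt
  exact integral_neg _

theorem _root_.YTD.Sys.r1_donaldson_neg (f : (Fin (d + 1) → ℝ) → ℝ) :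
    S.donaldson (fun x => -f x) = -S.donaldson f := by
  unfold Sys.donaldson
  rw [S.r1_bdryInt_neg, S.r1_volInt_neg]
  ring

end general

/-! ### rational PL functions -/

theorem _root_.YTD.IsRatPL.r1_continuous {n : ℕ} {f : (Fin n → ℝ) → ℝ} (hf : IsRatPL f) : Continuous f := by
  obtain ⟨K, a, c, rfl⟩ := hf
  have : (fun x : Fin n → ℝ => Finset.univ.sup' Finset.univ_nonempty
      (fun i => ∑ j, (a i j : ℝ) * x j + (c i : ℝ)))
      = Finset.univ.sup' Finset.univ_nonempty
        (fun i => fun x : Fin n → ℝ => ∑ j, (a i j : ℝ) * x j + (c i : ℝ)) := by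
    ext x
    rw [Finset.sup'_apply]
  rw [this]
  refine Continuous.finset_sup' _ fun i _ => ?_
  fun_prop

theorem _root_.YTD.IsRatPL.r1_convexOn {n : ℕ} {f : (Fin n → ℝ) → ℝ} (hf : IsRatPL f) :
    ConvexOn ℝ Set.univ f := by
  obtain ⟨K, a, c, rfl⟩ := hf
  refine ⟨convex_univ, fun x _ y _ s t hs ht hst => ?_⟩
  refine Finset.sup'_le _ _ fun i _ => ?_
  have hx := Finset.le_sup' (fun i => ∑ j, (a i j : ℝ) * x j + (c i : ℝ)) (Finset.mem_univ i)
  have hy := Finset.le_sup' (fun i => ∑ j, (a i j : ℝ) * y j + (c i : ℝ)) (Finset.mem_univ i)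
  have e : ∑ j, (a i j : ℝ) * (s • x + t • y) j + (c i : ℝ)
      = s * (∑ j, (a i j : ℝ) * x j + (c i : ℝ)) + t * (∑ j, (a i j : ℝ) * y j + (c i : ℝ)) := by
    have : (c i : ℝ) = s * (c i : ℝ) + t * (c i : ℝ) := by rw [← add_mul, hst, one_mul]
    rw [mul_add, mul_add, Finset.mul_sum, Finset.mul_sum]
    conv_lhs => rw [this]
    have e2 : ∑ j, (a i j : ℝ) * (s • x + t • y) j
        = ∑ j, s * ((a i j : ℝ) * x j) + ∑ j, t * ((a i j : ℝ) * y j) := by
      rw [← Finset.sum_add_distrib]
      refine Finset.sum_congr rfl fun j _ => ?_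
      simp only [Pi.add_apply, Pi.smul_apply, smul_eq_mul]
      ring
    rw [e2]
    ring
  rw [e]
  simp only [smul_eq_mul]
  gcongr

/-! ### the coordinates -/

theorem N0_pos : 0 < N0 := by norm_num [N0]

theorem unc_cen (x : Fin 4 → ℝ) : unc (cen x) = x := by
  have h : N0 ≠ 0 := N0_pos.ne'
  ext i
  fin_cases i <;> simp [unc, cen] <;> field_simp

theorem cen_unc (q : ℝ × ℝ × ℝ × ℝ) : cen (unc q) = q := by
  have h : N0 ≠ 0 := N0_pos.ne'
  obtain ⟨z, x, y2, y1⟩ := q
  simp [unc, cen, h]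

theorem continuous_unc : Continuous unc := by
  unfold unc Par.h1 Par.h2
  refine continuous_pi fun i => ?_
  fin_cases i <;> simp <;> fun_prop

theorem unc_affine (q q' : ℝ × ℝ × ℝ × ℝ) {s t : ℝ} (hst : s + t = 1) :
    unc (s • q + t • q') = s • unc q + t • unc q' := by
  obtain rfl : s = 1 - t := by linarith
  ext i
  fin_cases i <;> simp [unc, Par.h1, Par.h2] <;> ring

/-! ### Donaldson's functional of `P0` -/

theorem volInt_one_pos : 0 < P0.sys.volInt (fun _ => 1) := by
  unfold Sys.volInt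
  have h1 : 0 < volume P0.sys.carrier := by
    refine (P0.sys.r1_isOpen_inner.measure_pos volume delzant0.interior).trans_le ?_
    exact measure_mono P0.sys.r1_inner_subset
  have h2 : volume P0.sys.carrier < ⊤ := delzant0.bounded.measure_lt_top
  rw [setIntegral_const, smul_eq_mul, mul_one]
  exact ENNReal.toReal_pos h1.ne' h2.ne

theorem donaldson0 {f : (Fin 4 → ℝ) → ℝ} (hf : Continuous f) :
    P0.sys.donaldson f = N0 ^ 3 * p0.L A0 (fun q => f (unc q)) := by
  have hN := N0_pos
  have h1 := volInt_one_pos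
  have hv : P0.sys.volInt (fun _ => 1) = N0 ^ 4 * p0.I (fun _ => 1) :=
    volInt0 (f := fun _ => 1) continuous_const
  have hb : P0.sys.bdryInt (fun _ => 1) = N0 ^ 3 * p0.Bd (fun _ => 1) :=
    bdryInt0 (f := fun _ => 1) continuous_const
  have hL : p0.L A0 (fun _ => 1) = 0 := L_one good0
  have hI : 0 < p0.I (fun _ => 1) := by
    rw [hv] at h1
    exact pos_of_mul_pos_right h1 (by positivity)
  have hB : p0.Bd (fun _ => 1) = A0 * p0.I (fun _ => 1) := by
    unfold Par.L at hL
    linarith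
  unfold Sys.donaldson
  rw [hv, hb, hB, bdryInt0 hf, volInt0 hf]
  unfold Par.L
  field_simp

theorem convexOn_unc {f : (Fin 4 → ℝ) → ℝ} (hf : ConvexOn ℝ Set.univ f) :
    ConvexOn ℝ Set.univ (fun q => f (unc q)) := by
  refine ⟨convex_univ, fun q _ q' _ s t hs ht hst => ?_⟩
  simp only
  rw [unc_affine q q' hst]
  exact hf.2 (Set.mem_univ _) (Set.mem_univ _) hs ht hst

theorem Ko_subset_K (p : Par) : p.Ko ⊆ p.K := fun _ hq => ⟨hq.1.le, hq.2.1.le, hq.2.2.1.le, hq.2.2.2.le⟩

theorem bdd_unc {f : (Fin 4 → ℝ) → ℝ} (hf : Continuous f) :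
    ∃ C, ∀ q ∈ p0.Ko, |f (unc q)| ≤ C := by
  have hc : Continuous (fun q => f (unc q)) := hf.comp continuous_unc
  obtain ⟨C, hC⟩ := (isCompact_K good0).exists_bound_of_continuousOn hc.continuousOn
  exact ⟨C, fun q hq => by simpa using hC q (Ko_subset_K p0 hq)⟩

theorem convexOn_Ko {f : (Fin 4 → ℝ) → ℝ} (hf : ConvexOn ℝ Set.univ f) :
    ConvexOn ℝ p0.Ko (fun q => f (unc q)) := by
  refine (convexOn_unc hf).subset (Set.subset_univ _) ?_
  rw [← interior_K good0]
  exact (convex_K good0).interior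

theorem convexOn_K {f : (Fin 4 → ℝ) → ℝ} (hf : ConvexOn ℝ Set.univ f) :
    ConvexOn ℝ p0.K (fun q => f (unc q)) :=
  (convexOn_unc hf).subset (Set.subset_univ _) (convex_K good0)

theorem donaldson_ge {f : (Fin 4 → ℝ) → ℝ} (hf : Continuous f) (hcv : ConvexOn ℝ Set.univ f) :
    N0 ^ 3 * p0.Phi A0 D0 (13 / 5000) (1 / 10000) (Sym fun q => f (unc q)) ≤
      P0.sys.donaldson f := by
  have hN := N0_pos
  rw [donaldson0 hf]
  gcongr
  exact L_ge good0 (hf.comp continuous_unc) (convexOn_K hcv)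

theorem donaldson_nonneg {f : (Fin 4 → ℝ) → ℝ} (hf : Continuous f)
    (hcv : ConvexOn ℝ Set.univ f) : 0 ≤ P0.sys.donaldson f := by
  refine le_trans ?_ (donaldson_ge hf hcv)
  have hN := N0_pos
  have := Phi_nonneg good0 (f := fun q => f (unc q)) (convexOn_Ko hcv) (bdd_unc hf)
  positivity

theorem donaldson_affine (a : Fin 4 → ℝ) (c : ℝ) :
    P0.sys.donaldson (fun x => ∑ j, a j * x j + c) = 0 := by
  have h1 : 0 ≤ P0.sys.donaldson (fun x => ∑ j, a j * x j + c) := by
    refine donaldson_nonneg (by fun_prop) ⟨convex_univ, fun x _ y _ s t _ _ hst => le_of_eq ?_⟩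
    obtain rfl : s = 1 - t := by linarith
    simp [Fin.sum_univ_four]
    ring
  have h2 : 0 ≤ P0.sys.donaldson (fun x => -(∑ j, a j * x j + c)) := by
    refine donaldson_nonneg (by fun_prop) ⟨convex_univ, fun x _ y _ s t _ _ hst => le_of_eq ?_⟩
    obtain rfl : s = 1 - t := by linarith
    simp [Fin.sum_univ_four]
    ring
  rw [Sys.r1_donaldson_neg] at h2
  linarith

/-! ### the restriction to the line `x = y₂ = y₁ = 0` -/

theorem mem_Ko_line {z : ℝ} (hz : |z| < 111) : ((z, 0, 0, 0) : ℝ × ℝ × ℝ × ℝ) ∈ p0.Ko := by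
  have h0 : 0 ≤ |z| := abs_nonneg z
  have hz1 := (abs_lt.mp hz).1
  have hz2 := (abs_lt.mp hz).2
  have hh1 : 1 < p0.h1 z := by
    simp only [Par.h1, p0, N0]
    linarith
  have hh2 : 1 < p0.h2 z := by
    simp only [Par.h2, p0, N0]
    linarith
  refine ⟨by simpa [p0] using hz, ?_, ?_, ?_⟩
  · simp only [abs_zero, Par.u, p0, lt_min_iff]
    refine ⟨by norm_num, ?_, ?_⟩ <;> linarith
  · simp only [abs_zero]
    linarith
  · simp only [abs_zero, Par.W, sub_zero]
    have : p0.ins (p0.h2 z) = 0 := by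
      unfold Par.ins
      refine max_eq_left (max_le ?_ ?_)
      · simp only [p0, N0] at hh2 ⊢
        linarith
      · simp only [p0, N0] at hh2 ⊢
        linarith
    rw [this]
    linarith

theorem line_rat {f : (Fin 4 → ℝ) → ℝ} (hf : IsRatPL f) :
    ∃ (K : ℕ) (α β : Fin (K + 1) → ℚ), ∀ z : ℝ, f (unc (z, 0, 0, 0))
      = Finset.univ.sup' Finset.univ_nonempty (fun i => (α i : ℝ) * z + (β i : ℝ)) := by
  obtain ⟨K, a, c, rfl⟩ := hf
  refine ⟨K, fun i => a i 1 * 41008873216166246709434225880 * 13 / 2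
      - a i 2 * 41008873216166246709434225880 * 13 / 2 + a i 3 * 41008873216166246709434225880,
    fun i => a i 1 * 62239673473448052996734753030822 / 2
      + a i 2 * 62239673473448052996734753030822 / 2 + c i, fun z => ?_⟩
  simp only [unc]
  congr 1
  ext i
  simp only [Fin.sum_univ_four, Par.h1, Par.h2, p0, N0]
  simp
  ring

/-- **Toric K-polystability of `P0`.** -/
theorem toricKPolystable0 : P0.ToricKPolystable := by
  intro f hf
  have hfc := hf.r1_continuous
  have hcv := hf.r1_convexOn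
  refine ⟨donaldson_nonneg hfc hcv, fun h0 => ?_, ?_⟩
  · have hPhi : p0.Phi A0 D0 (13 / 5000) (1 / 10000) (Sym fun q => f (unc q)) = 0 := by
      have h1 := donaldson_ge hfc hcv
      have h2 := Phi_nonneg good0 (f := fun q => f (unc q)) (convexOn_Ko hcv) (bdd_unc hfc)
      have hN : 0 < N0 ^ 3 := by have := N0_pos; positivity
      rw [h0] at h1
      have h3 : p0.Phi A0 D0 (13 / 5000) (1 / 10000) (Sym fun q => f (unc q)) ≤ 0 := by
        by_contra h
        push Not at h
        exact absurd h1 (not_le.mpr (mul_pos hN h))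
      exact le_antisymm h3 h2
    obtain ⟨a0, az, ax, a2, a1, r, s, hr, hs, hq⟩ :=
      Phi_rigid good0 (f := fun q => f (unc q)) (convexOn_Ko hcv) (bdd_unc hfc) hPhi
    have hc0 : 0 < Real.sqrt (3 * D0) := Real.sqrt_pos.mpr (by norm_num [D0])
    have hc1 : Real.sqrt (3 * D0) < 111 := by
      rw [Real.sqrt_lt' (by norm_num)]
      norm_num [D0]
    have hirr := irr0
    set c0 := Real.sqrt (3 * D0) with hc0def
    obtain ⟨K, α, β, hl⟩ := line_rat hf
    have hline : ∀ z : ℝ, |z| < 111 → Finset.univ.sup' Finset.univ_nonempty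
        (fun i => (α i : ℝ) * z + (β i : ℝ))
        = a0 + az * z + r * max 0 (z - c0) + s * max 0 (-z - c0) := by
      intro z hz
      have h1 := hq _ (mem_Ko_line hz)
      simp only at h1
      rw [← hl z, h1]
      ring
    -- middle
    obtain ⟨i0, hB0, hA0⟩ := rat_of_affine α β (J := Set.Ioo (-c0) c0)
      (Set.Ioo_infinite (by linarith)) (A := a0) (B := az) (by
        intro z hz
        rw [hline z (abs_lt.mpr ⟨by linarith [hz.1], by linarith [hz.2]⟩),
          max_eq_left (by linarith [hz.2]), max_eq_left (by linarith [hz.1])]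
        ring)
    obtain ⟨i1, hB1, hA1⟩ := rat_of_affine α β (J := Set.Ioo c0 111)
      (Set.Ioo_infinite (by linarith)) (A := a0 - r * c0) (B := az + r) (by
        intro z hz
        rw [hline z (abs_lt.mpr ⟨by linarith [hz.1], by linarith [hz.2]⟩),
          max_eq_right (by linarith [hz.1]), max_eq_left (by linarith [hz.1])]
        ring)
    obtain ⟨i2, hB2, hA2⟩ := rat_of_affine α β (J := Set.Ioo (-111) (-c0))
      (Set.Ioo_infinite (by linarith)) (A := a0 - s * c0) (B := az - s) (by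
        intro z hz
        rw [hline z (abs_lt.mpr ⟨by linarith [hz.1], by linarith [hz.2]⟩),
          max_eq_left (by linarith [hz.2]), max_eq_right (by linarith [hz.2])]
        ring)
    have hr0 : r = 0 := by
      by_contra hne
      have e1 : r = ((α i1 - α i0 : ℚ) : ℝ) := by push_cast; linarith
      have e2 : r * c0 = ((β i0 - β i1 : ℚ) : ℝ) := by push_cast; linarith
      apply hirr ((β i0 - β i1) / (α i1 - α i0))
      rw [Rat.cast_div, ← e1, ← e2]
      field_simp
    have hs0 : s = 0 := by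
      by_contra hne
      have e1 : s = ((α i0 - α i2 : ℚ) : ℝ) := by push_cast; linarith
      have e2 : s * c0 = ((β i0 - β i2 : ℚ) : ℝ) := by push_cast; linarith
      apply hirr ((β i0 - β i2) / (α i0 - α i2))
      rw [Rat.cast_div, ← e1, ← e2]
      field_simp
    subst hr0 hs0
    -- on the inner part
    have hN := N0_pos
    have hN' := hN.ne'
    obtain ⟨v, c, hin⟩ : ∃ (v : Fin 4 → ℝ) (c : ℝ), ∀ x ∈ P0.sys.inner,
        f x = ∑ j, v j * x j + c := by
      refine ⟨![ax / N0, a1 / N0, a2 / N0, az / N0 + 13 * (a2 - a1) / (2 * N0)],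
        a0 - (a2 + a1) * (62239673473448052996734753030822 / N0) / 2, fun x hx => ?_⟩
      have h1 := hq _ ((mem_inner_iff x).mp hx)
      simp only [unc_cen] at h1
      rw [h1]
      simp only [cen, Fin.sum_univ_four, Par.h1, Par.h2, p0]
      simp
      field_simp
      ring
    refine ⟨v, c, fun x hx => ?_⟩
    · obtain ⟨y, hy⟩ := delzant0.interior
      have hlim : Tendsto (fun t : ℝ => f (t • y + (1 - t) • x)) (𝓝[>] 0) (𝓝 (f x)) := by
        have : Continuous (fun t : ℝ => f (t • y + (1 - t) • x)) := hfc.comp (by fun_prop)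
        have h2 := this.tendsto 0
        simp only [zero_smul, zero_add, sub_zero, one_smul] at h2
        exact h2.mono_left nhdsWithin_le_nhds
      have hlim2 : Tendsto (fun t : ℝ => ∑ j, v j * (t • y + (1 - t) • x) j + c) (𝓝[>] 0)
          (𝓝 (∑ j, v j * x j + c)) := by
        have : Continuous (fun t : ℝ => ∑ j, v j * (t • y + (1 - t) • x) j + c) := by
          fun_prop
        have h2 := this.tendsto 0
        simp only [zero_smul, zero_add, sub_zero, one_smul] at h2
        exact h2.mono_left nhdsWithin_le_nhds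
      refine tendsto_nhds_unique hlim (hlim2.congr' ?_)
      have : Set.Ioo (0:ℝ) 1 ∈ 𝓝[>] (0:ℝ) := Ioo_mem_nhdsGT (by norm_num)
      filter_upwards [this] with t ht
      refine (hin _ fun i => ?_).symm
      have e : P0.sys.ell i (t • y + (1 - t) • x)
          = t * P0.sys.ell i y + (1 - t) * P0.sys.ell i x := by
        simp only [Sys.ell, Fin.sum_univ_four, Pi.add_apply, Pi.smul_apply, smul_eq_mul]
        ring
      rw [e]
      have h3 := hy i
      have h4 := hx i
      have : 0 < t * P0.sys.ell i y := mul_pos ht.1 h3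
      have : 0 ≤ (1 - t) * P0.sys.ell i x := mul_nonneg (by linarith [ht.2]) h4
      linarith
  · rintro ⟨a, c, hac⟩
    rw [P0.sys.r1_donaldson_congr hac]
    exact donaldson_affine a c

end YTD.R1

namespace YTD

/-- **Toric K-polystability of `P0`.** -/
theorem toricKPolystable0 : P0.ToricKPolystable := R1.toricKPolystable0

end YTD
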